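import Mathlib
import Pool.Agent.W751.CV.Stm

set_option autoImplicit false

open Polynomial Filter Topology MeasureTheory
open scoped ComplexOrder

namespace Pool.Agent.W156.CVNegIn

open Pool.Agent.W751.CD Pool.Agent.W751.CV

lemma eval_P {N : ℕ} (z : Fin N → ℂ) (w : ℂ) : (P z).eval w = ∏ i, (w - z i) := by
  unfold P
  rw [Polynomial.eval_prod]
  simp

lemma vd_cont {N : ℕ} : Continuous (fun z : Fin N → ℂ => vd z) := by
  unfold vd
  have : (fun z : Fin N → ℂ => ‖(Matrix.vandermonde z).det‖ ^ 2) =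
      fun z => ‖∏ i : Fin N, ∏ j ∈ Finset.Ioi i, (z j - z i)‖ ^ 2 := by
    funext z
    rw [Matrix.det_vandermonde]
  rw [this]
  fun_prop

lemma vd_nonneg {N : ℕ} (z : Fin N → ℂ) : 0 ≤ vd z := by unfold vd; positivity

/-- moments of the disc -/
lemma disc_moment (ρ : ℝ) (hρ : 0 < ρ) (j : ℕ) :
    ∫⁻ x, ENNReal.ofReal (‖x‖ ^ (2 * j)) ∂(mD ρ) = ENNReal.ofReal (hk ρ j) := by
  have hint : Integrable (fun x : ℂ => ‖x‖ ^ (2 * j)) (mD ρ) := by
    have : ContinuousOn (fun x : ℂ => ‖x‖ ^ (2 * j)) (Metric.closedBall (0 : ℂ) ρ) :=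
      (by fun_prop : Continuous (fun x : ℂ => ‖x‖ ^ (2 * j))).continuousOn
    exact this.integrableOn_compact (isCompact_closedBall _ _)
  rw [← ofReal_integral_eq_lintegral_ofReal hint (ae_of_all _ fun x => by positivity)]
  congr 1
  have h1 : ∫ x, ‖x‖ ^ (2 * j) ∂(mD ρ) =
      ∫ x : ℂ, (Set.Iic ρ).indicator (fun y : ℝ => y ^ (2 * j)) ‖x‖ := by
    unfold mD
    rw [← integral_indicator Metric.isClosed_closedBall.measurableSet]
    congr 1
    funext x
    simp only [Set.indicator, Metric.mem_closedBall, dist_zero_right, Set.mem_Iic]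
  rw [h1, integral_fun_norm_addHaar]
  have h2 : ∫ y in Set.Ioi (0 : ℝ), y ^ (Module.finrank ℝ ℂ - 1) •
      (Set.Iic ρ).indicator (fun y : ℝ => y ^ (2 * j)) y = ρ ^ (2 * j + 2) / (2 * j + 2) := by
    have h3 : (fun y : ℝ => y ^ (Module.finrank ℝ ℂ - 1) •
        (Set.Iic ρ).indicator (fun y : ℝ => y ^ (2 * j)) y) =
        (Set.Iic ρ).indicator (fun y : ℝ => y ^ (2 * j + 1)) := by
      funext y
      simp only [Set.indicator, Complex.finrank_real_complex, smul_eq_mul]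
      split_ifs
      · ring
      · simp
    rw [h3, setIntegral_indicator measurableSet_Iic, Set.Ioi_inter_Iic,
      ← intervalIntegral.integral_of_le hρ.le, integral_pow]
    push_cast
    rw [zero_pow (by omega), sub_zero]
    congr 1
    ring
  rw [h2]
  have h4 : (volume : Measure ℂ).real (Metric.ball (0 : ℂ) 1) = Real.pi := by
    rw [Measure.real, Complex.volume_ball]
    simp
  rw [h4, Complex.finrank_real_complex]
  unfold hk
  simp only [nsmul_eq_mul, smul_eq_mul]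
  push_cast
  field_simp

/-- the density -/
noncomputable def gd (M : ℝ) (w : ℂ) : ℂ → ENNReal :=
  {x : ℂ | 1 / M ≤ ‖w - x‖}.indicator (fun x => ENNReal.ofReal ((‖w - x‖ ^ 2)⁻¹))

lemma gd_meas (M : ℝ) (w : ℂ) : Measurable (gd M w) := by
  unfold gd
  apply Measurable.indicator
  · exact (by fun_prop : Measurable (fun x : ℂ => (‖w - x‖ ^ 2)⁻¹)).ennreal_ofReal
  · exact (isClosed_le continuous_const (by fun_prop)).measurableSet

lemma gd_int (hNU : S_NU) (ρ M : ℝ) (w : ℂ) (hρ : 0 < ρ) (hM : 1 ≤ M) (hw : ‖w‖ ≤ ρ + 1) :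
    ∫⁻ x, gd M w x ∂(mD ρ) ≤ ENNReal.ofReal (2 * Real.pi * Real.log ((2 * ρ + 1) * M)) := by
  have hM0 : 0 < M := by linarith
  have hset : MeasurableSet {a : ℂ | 1 / M ≤ ‖a‖ ∧ ‖a‖ ≤ 2 * ρ + 1} :=
    (measurableSet_le measurable_const measurable_norm).inter
      (measurableSet_le measurable_norm measurable_const)
  let h : ℂ → ENNReal := {a : ℂ | 1 / M ≤ ‖a‖ ∧ ‖a‖ ≤ 2 * ρ + 1}.indicator
    (fun a => ENNReal.ofReal ((‖a‖ ^ 2)⁻¹))
  have h1 : ∫⁻ x, gd M w x ∂(mD ρ) ≤ ∫⁻ x : ℂ, h (w - x) := by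
    unfold mD
    rw [← lintegral_indicator Metric.isClosed_closedBall.measurableSet]
    apply lintegral_mono
    intro x
    by_cases hx : x ∈ Metric.closedBall (0 : ℂ) ρ
    · rw [Set.indicator_of_mem hx]
      unfold gd
      by_cases hx2 : 1 / M ≤ ‖w - x‖
      · have hx3 : ‖w - x‖ ≤ 2 * ρ + 1 := by
          have := norm_sub_le w x
          rw [Metric.mem_closedBall, dist_zero_right] at hx
          linarith
        rw [Set.indicator_of_mem (show x ∈ {x : ℂ | 1 / M ≤ ‖w - x‖} from hx2)]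
        simp only [h]
        rw [Set.indicator_of_mem (show w - x ∈ {a : ℂ | 1 / M ≤ ‖a‖ ∧ ‖a‖ ≤ 2 * ρ + 1} from ⟨hx2, hx3⟩)]
      · rw [Set.indicator_of_notMem (show x ∉ {x : ℂ | 1 / M ≤ ‖w - x‖} from hx2)]
        exact bot_le
    · rw [Set.indicator_of_notMem hx]
      exact bot_le
  refine h1.trans ?_
  rw [lintegral_sub_left_eq_self h w]
  have h2 : ∫⁻ a, h a = nu {a : ℂ | 1 / M ≤ ‖a‖ ∧ ‖a‖ ≤ 2 * ρ + 1} := by
    unfold nu
    rw [withDensity_apply _ hset, ← lintegral_indicator hset]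
  rw [h2, hNU.1 (1 / M) (2 * ρ + 1) (by positivity) (by
    have : 1 / M ≤ 1 := by rw [div_le_one hM0]; exact hM
    linarith)]
  have : (2 * ρ + 1) / (1 / M) = (2 * ρ + 1) * M := by field_simp
  rw [this]

lemma gd_mul (M : ℝ) (w x : ℂ) (k : ℕ) :
    gd M w x * ENNReal.ofReal (‖((X - C w) * X ^ k : ℂ[X]).eval x‖ ^ 2) ≤
      ENNReal.ofReal (‖x‖ ^ (2 * k)) := by
  unfold gd
  by_cases hx : 1 / M ≤ ‖w - x‖
  · rw [Set.indicator_of_mem (show x ∈ {x : ℂ | 1 / M ≤ ‖w - x‖} from hx),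
      ← ENNReal.ofReal_mul (by positivity)]
    apply ENNReal.ofReal_le_ofReal
    simp only [eval_mul, eval_sub, eval_X, eval_C, eval_pow, norm_mul, norm_pow]
    rw [norm_sub_rev x w, mul_pow, ← mul_assoc]
    by_cases h0 : ‖w - x‖ = 0
    · rw [h0]
      simp
    · rw [inv_mul_cancel₀ (pow_ne_zero 2 h0), one_mul, ← pow_mul, mul_comm k 2]
  · rw [Set.indicator_of_notMem (show x ∉ {x : ℂ | 1 / M ≤ ‖w - x‖} from hx), zero_mul]
    exact bot_le

/-- trial polynomials -/
noncomputable def tr (w : ℂ) : ℕ → ℂ[X]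
  | 0 => 1
  | k + 1 => (X - C w) * X ^ k

lemma tr_monic (w : ℂ) (k : ℕ) : (tr w k).Monic ∧ (tr w k).natDegree = k := by
  cases k with
  | zero => exact ⟨monic_one, natDegree_one⟩
  | succ k =>
    refine ⟨(monic_X_sub_C w).mul (monic_X_pow k), ?_⟩
    change ((X - C w) * X ^ k : ℂ[X]).natDegree = k + 1
    rw [(monic_X_sub_C w).natDegree_mul (monic_X_pow k), natDegree_X_sub_C, natDegree_X_pow]
    ring

theorem negin : S_NEGIN := by
  intro hNU hG hPIW ρ M N w hρ hN hM hw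
  have hM0 : 0 < M := by linarith
  have : IsFiniteMeasure (mD ρ) := by
    unfold mD
    exact ⟨by
      rw [Measure.restrict_apply_univ]
      exact (isCompact_closedBall (0 : ℂ) ρ).measure_lt_top⟩
  have hgi := gd_int hNU ρ M w hρ hM hw
  have hfin : IsFiniteMeasure ((mD ρ).withDensity (gd M w)) := by
    refine ⟨?_⟩
    rw [withDensity_apply _ MeasurableSet.univ, Measure.restrict_univ]
    exact hgi.trans_lt ENNReal.ofReal_lt_top
  have hset : MeasurableSet {z : Fin N → ℂ | ∀ i, 1 / M ≤ ‖w - z i‖} := by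
    rw [Set.ofPred_forall]
    apply MeasurableSet.iInter
    intro i
    exact (isClosed_le continuous_const (by fun_prop)).measurableSet
  have hvm : Measurable (fun z : Fin N → ℂ => ENNReal.ofReal (vd z)) :=
    vd_cont.measurable.ennreal_ofReal
  have hpm : Measurable (fun z : Fin N → ℂ => ENNReal.ofReal ((‖(P z).eval w‖ ^ 2)⁻¹)) := by
    simp only [eval_P]
    apply Measurable.ennreal_ofReal
    apply Measurable.inv
    exact (by fun_prop : Continuous (fun z : Fin N → ℂ => ‖∏ i, (w - z i)‖ ^ 2)).measurable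
  have hL : ∫⁻ z in {z : Fin N → ℂ | ∀ i, 1 / M ≤ ‖w - z i‖},
      ENNReal.ofReal ((‖(P z).eval w‖ ^ 2)⁻¹) ∂(mu ρ N) =
      ∫⁻ z, ENNReal.ofReal (vd z) ∂(Measure.pi fun _ : Fin N => (mD ρ).withDensity (gd M w)) := by
    unfold mu
    rw [setLIntegral_withDensity_eq_setLIntegral_mul _ hvm hpm hset, ← lintegral_indicator hset,
      hPIW N (mD ρ) (gd M w) (gd_meas M w) hfin _ hvm]
    congr 1
    funext z
    by_cases hz : ∀ i, 1 / M ≤ ‖w - z i‖
    · rw [Set.indicator_of_mem (show z ∈ {z : Fin N → ℂ | ∀ i, 1 / M ≤ ‖w - z i‖} from hz)]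
      have : ∏ i, gd M w (z i) = ENNReal.ofReal ((‖(P z).eval w‖ ^ 2)⁻¹) := by
        rw [eval_P, norm_prod, ← Finset.prod_pow, ← Finset.prod_inv_distrib,
          ENNReal.ofReal_prod_of_nonneg (fun i _ => by positivity)]
        apply Finset.prod_congr rfl
        intro i _
        unfold gd
        rw [Set.indicator_of_mem (show z i ∈ {x : ℂ | 1 / M ≤ ‖w - x‖} from hz i)]
      rw [this, Pi.mul_apply, mul_comm]
    · rw [Set.indicator_of_notMem (show z ∉ {z : Fin N → ℂ | ∀ i, 1 / M ≤ ‖w - z i‖} from hz)]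
      push Not at hz
      obtain ⟨i, hi⟩ := hz
      have : ∏ i, gd M w (z i) = 0 := by
        apply Finset.prod_eq_zero (Finset.mem_univ i)
        unfold gd
        exact Set.indicator_of_notMem (show z i ∉ {x : ℂ | 1 / M ≤ ‖w - x‖} from not_le.mpr hi) _
      rw [this, zero_mul]
  rw [hL]
  have hsupp : ((mD ρ).withDensity (gd M w)) (Metric.closedBall (0 : ℂ) ρ)ᶜ = 0 := by
    apply withDensity_absolutelyContinuous
    unfold mD
    rw [Measure.restrict_apply Metric.isClosed_closedBall.measurableSet.compl]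
    simp
  have hGR := hG N ((mD ρ).withDensity (gd M w)) ρ hsupp (tr w) (tr_monic w)
  refine hGR.trans ?_
  obtain ⟨n, rfl⟩ : ∃ n, N = n + 1 := ⟨N - 1, by omega⟩
  rw [Finset.prod_range_succ']
  have hev : ∀ p : ℂ[X], Measurable (fun x : ℂ => ENNReal.ofReal (‖p.eval x‖ ^ 2)) := by
    intro p
    apply Measurable.ennreal_ofReal
    exact (by fun_prop : Continuous (fun x : ℂ => ‖p.eval x‖ ^ 2)).measurable
  have hk1 : ∀ k ∈ Finset.range n,
      ∫⁻ x, ENNReal.ofReal (‖(tr w (k + 1)).eval x‖ ^ 2) ∂((mD ρ).withDensity (gd M w)) ≤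
        ENNReal.ofReal (hk ρ k) := by
    intro k _
    rw [lintegral_withDensity_eq_lintegral_mul _ (gd_meas M w) (hev _), ← disc_moment ρ hρ k]
    apply lintegral_mono
    intro x
    exact gd_mul M w x k
  have hk0 : ∫⁻ x, ENNReal.ofReal (‖(tr w 0).eval x‖ ^ 2) ∂((mD ρ).withDensity (gd M w)) ≤
      ENNReal.ofReal (2 * Real.pi * Real.log ((2 * ρ + 1) * M)) := by
    have : (fun x : ℂ => ENNReal.ofReal (‖(tr w 0).eval x‖ ^ 2)) = fun _ => 1 := by
      funext x
      simp [tr]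
    rw [this, lintegral_one, withDensity_apply _ MeasurableSet.univ, Measure.restrict_univ]
    exact hgi
  have hhk : ∀ k, 0 ≤ hk ρ k := by
    intro k
    unfold hk
    have := Real.pi_pos
    positivity
  have hlog : 0 ≤ Real.log ((2 * ρ + 1) * M) := by
    apply Real.log_nonneg
    nlinarith
  calc ((n + 1).factorial : ENNReal) * ((∏ k ∈ Finset.range n,
        ∫⁻ x, ENNReal.ofReal (‖(tr w (k + 1)).eval x‖ ^ 2) ∂((mD ρ).withDensity (gd M w))) *
        ∫⁻ x, ENNReal.ofReal (‖(tr w 0).eval x‖ ^ 2) ∂((mD ρ).withDensity (gd M w)))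
      ≤ ((n + 1).factorial : ENNReal) * ((∏ k ∈ Finset.range n, ENNReal.ofReal (hk ρ k)) *
        ENNReal.ofReal (2 * Real.pi * Real.log ((2 * ρ + 1) * M))) := by
        gcongr with k hk
        exact hk1 k hk
    _ = ENNReal.ofReal (((n + 1).factorial : ℝ) * ((∏ k ∈ Finset.range n, hk ρ k) *
        (2 * Real.pi * Real.log ((2 * ρ + 1) * M)))) := by
        rw [ENNReal.ofReal_mul (p := ((n + 1).factorial : ℝ)) (Nat.cast_nonneg _),
          ENNReal.ofReal_mul (p := ∏ k ∈ Finset.range n, hk ρ k)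
          (Finset.prod_nonneg fun k _ => hhk k), ENNReal.ofReal_prod_of_nonneg (fun k _ => hhk k),
          ENNReal.ofReal_natCast]
    _ = _ := by
        congr 1
        unfold ZN
        rw [Finset.prod_range_succ]
        have e1 : hk ρ n = Real.pi * ρ ^ (2 * n + 2) / (n + 1) := rfl
        rw [e1]
        have hr : ρ ^ (2 * (n + 1)) = ρ ^ (2 * n + 2) := by ring_nf
        rw [hr]
        have hr0 : ρ ^ (2 * n + 2) ≠ 0 := pow_ne_zero _ hρ.ne'
        have hn0 : (n : ℝ) + 1 ≠ 0 := by positivity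
        push_cast
        field_simp

end Pool.Agent.W156.CVNegIn
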